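import Pool.Agent.U854.CQ.Law
import Pool.Agent.U854.CL.Line
import Pool.Agent.U854.SA.Res
import Pool.Agent.U854.DG.Fin

/-!
# MP_e573c6_ag: families of curves in `Y(1)^n` degenerating to the cusp: no atypical points on all but
finitely many members

`Y(1)^n` is identified with `ℂ^n` by the elliptic modular function `jj = j = E₄³ / Δ`. A special
subvariety of dimension `r` is given by a `SpecialVariety n r`: the constant coordinates are CM
points, the coordinates of class `l` are `j (g_i z_l)` with `z_1, …, z_r` free in the upper half plane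
and integral matrices `g_i` of positive determinant.

**The families.** Let `K` be a number field, embedded into `ℂ`, and `P ∈ 𝓞 K [a]` a polynomial with
the root `b ∈ 𝓞 K`. Let `B_a ⊆ (P¹)^s` be a family of varieties given by multihomogeneous forms `H_t`
with coefficients in `𝓞 K [a]`, and let `y_i = N_i / M_i` (`i ≤ n`) be quotients of forms of the same
multidegree with coefficients in `𝓞 K [a]`. We consider the sets (`Degeneration.member`)

  `X_a = {(ω_i P(a)^(-e_i) (1 + P(a)^h y_i(a; z)))_i : z ∈ B_a(ℂ)} ⊂ Y(1)^n`,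

where `h ≥ 1`, `e_i > h` and the `ω_i` are roots of unity. For `a → b` the whole member `X_a` tends to
the cusp `(∞, …, ∞)`, in one direction, and `y_i` describes the terms of first order.

**Position.** The degeneration at `b` is in position `m` (`Degeneration.Position`) if at each point,
over any extension field of `K`, of the closure of the graph of `(y_i)_i` on `B_b`: if `w` of the
`y_i` are algebraically independent over `K` then at least `n + w - m` of the numbers `y_i / e_i` are
finite and distinct. For `m = 1`, curves, this means: at each point of `B_b` at least `n - 1` of the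
numbers `y_i / e_i` are finite and distinct, and all of them at the generic points.

**Theorem** (`result`).
1. Let the degeneration at `b` be in position `m`. There is a finite set `S` of primes of `K` such that
   `X_a` has no atypical intersection for all `a ∈ K` for which `1 / (a - b)` is not `S`-integral:
   for each special `Z` of dimension `r` the points of `X_a ∩ Z` have transcendence degree at
   most `m + r - n`, and every irreducible closed subset of `X_a ∩ Z` has dimension at most `m + r - n`.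
2. A family `(X_a)` over `K` with three degenerations in position `m` has this property for all
   but finitely many `a ∈ K`.
3. If it has two, then this is true for all but finitely many `S₀`-integers `a`, for each finite set
   `S₀` of primes.
4. Example, for `n = 3` and `m = 1`: the curves of all points
   `(c^(-e_0) (1 + e_0 c t), c^(-e_1) (1 + e_1 c / t), c^(-e_2) (1 + e_2 c (t + 1) / (t - 2)))`,
   `c = P(a)`, `e_i ≥ 2`, `P` a polynomial with three roots in `𝓞 K`.

For `m = 1` the conclusion says that the curve `X_a` meets no special subvariety of codimension at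
least two, so `atyp(X_a) = ∅`, and that the points of `X_a` on special hypersurfaces are algebraic. So
in 2. the statement of the problem is true for all but finitely many members of the family. In general
the members do not pass through the cusp `(∞, …, ∞)` (Daw and Orr prove the conjecture for curves over
`ℚ̄` in `Y(1)^n` which do), and their coordinate functions have arbitrary degrees, for example all equal
to one as in 4. (Habegger and Pila prove it for asymmetric curves).

The starting results on families (`CurveFamilies`, `FamiliesAlmostAllParameters` of this problem,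
`AllButFinitelyManyMembers` of `MP_22337f_ag`) compare absolute values: they need orders `e_i` which
are independent for several degenerate members, or limits which are curves whose coordinates are
not constant. Here the limit is a point, the orders are arbitrary, and the terms of the next order are
used.

**Proof.** At a place `v` with `|a - b|_v < 1` the coordinates `x_i = ω_i δ^(-e_i) (1 + δ^h y_i)`,
`δ = P(a)`, are near to the cusp. By the law at the cusp of our file `MP_130685_nt.NearTheCusp`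
(`Pool.Agent.U854.CQ.Law`; two isogenous points near to the cusp satisfy
`x'^d = ζ x^a (1 + ε)`, `ζ` a root of unity) coordinates which are linked by an isogeny satisfy
`e_i y_j ≡ e_j y_i` modulo `v`. This contradicts the position modulo `v`, which follows from the
position in characteristic zero for almost all `v` (`spread`: an ultraproduct of counterexamples
modulo infinitely many `v` would be a counterexample over an extension of `K`). Parts 2 and 3 follow by
the unit equation (starting library, `Pool.Agent.K1H83.TW.unit_two`): only finitely many `a ∈ K` are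
`S`-integral with respect to three points.
-/

set_option autoImplicit false

namespace Pool.Agent.Results.MP_e573c6_ag.DegenerationsToTheCusp

open UpperHalfPlane H294ZP NumberField IsDedekindDomain Polynomial Filter
open Pool.Agent.U854.DG (fin_small exists_prime unif_lt near_p three_points two_points)

/-- A special subvariety of dimension `r` of `Y(1)^n`: a map `cls` from the coordinates onto `r`
classes (`none` for the constant coordinates), an integral matrix of positive determinant for each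
coordinate, and a CM point for each coordinate. -/
structure SpecialVariety (n r : ℕ) where
  cls : Fin n → Option (Fin r)
  surj : ∀ l : Fin r, ∃ i, cls i = some l
  mat : Fin n → Matrix (Fin 2) (Fin 2) ℤ
  det_pos : ∀ i, 0 < (mat i).det
  cm : Fin n → ℍ
  isCM : ∀ i, IsCM (cm i)

/-- The points of a special subvariety: the constant coordinates are the singular moduli
`j (cm i)`, the other coordinates are `j (g_i z_l)`, where `l` is the class of `i`, `g_i = mat i` and
`z_1, …, z_r` are free parameters in the upper half plane. -/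
def SpecialVariety.locus {n r : ℕ} (Z : SpecialVariety n r) : Set (Fin n → ℂ) :=
  {x | ∃ z : Fin r → ℍ, ∀ i, (Z.cls i = none → x i = jj (Z.cm i)) ∧
    ∀ l, Z.cls i = some l → ∃ w : ℍ,
      (w : ℂ) * (Z.mat i 1 0 * z l + Z.mat i 1 1) = Z.mat i 0 0 * z l + Z.mat i 0 1 ∧ x i = jj w}

/-- `X` has no atypical intersection: for each special subvariety `Z` of dimension `r`, the points of
`X ∩ Z` have transcendence degree at most `m + r - n`, and each irreducible closed subset of `X ∩ Z`
has dimension at most `m + r - n`. -/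
def NoAtypical {n : ℕ} (X : Set (Fin n → ℂ)) (m : ℕ) : Prop :=
  ∀ (r : ℕ) (Z : SpecialVariety n r),
    (∀ x ∈ X ∩ Z.locus, ∀ W : Finset (Fin n), AlgebraicIndependent ℚ (fun i : W => x i) →
      n + W.card ≤ m + r) ∧
    ∀ A ⊆ X ∩ Z.locus, Pool.Agent.W282.ZP.zcl A ⊆ A → (Pool.Agent.W282.ZP.idealOf A).IsPrime →
      (n : Cardinal) + Pool.Agent.W282.ZP.zdim A ≤ (m : Cardinal) + (r : Cardinal)

/-- A form with coefficients in `R` which is homogeneous of degree `deg i` in `(ξ i, ζ i)` for each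
`i`: the coefficients of the monomials `∏ ξ_i ^ (e_i) ζ_i ^ (deg i - e_i)`. -/
structure MultiForm (R : Type) (s : ℕ) where
  deg : Fin s → ℕ
  coeff : ((i : Fin s) → Fin (deg i + 1)) → R

/-- The value of the form at a point over `k`, for a ring homomorphism `R → k`. -/
def MultiForm.eval {R k : Type} [CommRing R] [CommRing k] {s : ℕ} (F : MultiForm R s) (π : R →+* k)
    (ξ ζ : Fin s → k) : k :=
  ∑ e, π (F.coeff e) * ∏ i, ξ i ^ (e i : ℕ) * ζ i ^ (F.deg i - e i)

/-- A family degenerating to the cusp at the parameter `b`: equations `H_t` of varieties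
`B_a ⊆ (P¹)^s`, forms `N_i` and `M_i` of the same multidegrees, all with coefficients in `𝓞 K [a]`,
a polynomial `P ≠ 0` with `P (b) = 0`, exponents `e_i > h > 0`, and roots of unity `ω_i`. -/
structure Degeneration (K : Type) [Field K] (n : ℕ) where
  s : ℕ
  T : Type
  H : T → MultiForm (𝓞 K)[X] s
  N : Fin n → MultiForm (𝓞 K)[X] s
  M : Fin n → MultiForm (𝓞 K)[X] s
  deg_eq : ∀ i, (N i).deg = (M i).deg
  P : (𝓞 K)[X]
  P_ne : P ≠ 0
  b : 𝓞 K
  isRoot : P.eval b = 0
  h : ℕ
  h_pos : 0 < h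
  e : Fin n → ℕ
  h_lt : ∀ i, h < e i
  ω : Fin n → 𝓞 K
  root : ∀ i, ∃ r : ℕ, 0 < r ∧ ω i ^ r = 1

variable {K : Type} [Field K] {n : ℕ}

/-- the polynomials in the parameter with coefficients in `𝓞 K` are evaluated at `a` -/
noncomputable def spec (σ : K →+* ℂ) (a : K) : (𝓞 K)[X] →+* ℂ :=
  eval₂RingHom (σ.comp (algebraMap (𝓞 K) K)) (σ a)

/-- The member of the family with the parameter `a`: all points
`(ω_i P(a)^(-e_i) (1 + P(a)^h N_i(a; z) / M_i(a; z)))_i` with `z ∈ B_a`, `M_i(a; z) ≠ 0`. -/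
def Degeneration.member (D : Degeneration K n) (σ : K →+* ℂ) (a : K) : Set (Fin n → ℂ) :=
  {x | ∃ ξ ζ : Fin D.s → ℂ, (∀ j, ξ j ≠ 0 ∨ ζ j ≠ 0) ∧
    (∀ t, (D.H t).eval (spec σ a) ξ ζ = 0) ∧
    ∀ i, (D.M i).eval (spec σ a) ξ ζ ≠ 0 ∧
      x i = σ (D.ω i) / σ (aeval a D.P) ^ D.e i * (1 + σ (aeval a D.P) ^ D.h *
        ((D.N i).eval (spec σ a) ξ ζ / (D.M i).eval (spec σ a) ξ ζ))}

/-- The point `((ξ_j : ζ_j)_j, (η_i : θ_i)_i)` over `k` satisfies the equations `H_t` and
`η_i M_i = θ_i N_i` for the parameter `a = b`; `ρ` is a homomorphism from `𝓞 K` to `k`. -/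
def Degeneration.OnGraph (D : Degeneration K n) {k : Type} [Field k]
    (ρ : 𝓞 K →+* k) (ξ ζ : Fin D.s → k) (η θ : Fin n → k) : Prop :=
  (∀ j, ξ j ≠ 0 ∨ ζ j ≠ 0) ∧ (∀ i, η i ≠ 0 ∨ θ i ≠ 0) ∧
    (∀ t, (D.H t).eval (ρ.comp (evalRingHom D.b)) ξ ζ = 0) ∧
    ∀ i, η i * (D.M i).eval (ρ.comp (evalRingHom D.b)) ξ ζ =
      θ i * (D.N i).eval (ρ.comp (evalRingHom D.b)) ξ ζ

/-- The degeneration is in position: at each point over an extension `k` of `K`, for each set
`W` of algebraically independent coordinates `y_i = η_i / θ_i` there is a set `S` of coordinates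
such that the `y_i / e_i`, `i ∈ S`, are finite and distinct, with `n + |W| ≤ m + |S|`. -/
def Degeneration.Position (D : Degeneration K n) (m : ℕ) : Prop :=
  ∀ (k : Type) [Field k] [Algebra K k] (ξ ζ : Fin D.s → k) (η θ : Fin n → k),
    D.OnGraph ((algebraMap K k).comp (algebraMap (𝓞 K) K)) ξ ζ η θ →
    ∀ W : Finset (Fin n), AlgebraicIndependent K (fun i : W => η i / θ i) →
      ∃ S : Finset (Fin n), (∀ i ∈ S, θ i ≠ 0) ∧
        (∀ i ∈ S, ∀ j ∈ S, i ≠ j → η i / θ i / D.e i ≠ η j / θ j / D.e j) ∧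
        n + W.card ≤ m + S.card

/-- The rational curve of all points
`(c^(-e_0) (1 + e_0 c t), c^(-e_1) (1 + e_1 c / t), c^(-e_2) (1 + e_2 c (t + 1) / (t - 2)))`,
`t` a complex number, `t ≠ 0, 2`. -/
def spaceCurve (e : Fin 3 → ℕ) (c : ℂ) : Set (Fin 3 → ℂ) :=
  {x | ∃ t : ℂ, t ≠ 0 ∧ t ≠ 2 ∧ x 0 = (1 + e 0 * c * t) / c ^ e 0 ∧
    x 1 = (1 + e 1 * c * (1 / t)) / c ^ e 1 ∧
    x 2 = (1 + e 2 * c * ((t + 1) / (t - 2))) / c ^ e 2}

/-- The coordinates `i` and `j` are linked at the point `(η_i : θ_i)_i`: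
`(e_i / g) y_j = (e_j / g) y_i`, where `g` is the greatest common divisor of `e_i` and `e_j` and
`y_i = η_i / θ_i`. -/
def Degeneration.Linked (D : Degeneration K n) {k : Type} [Field k] (η θ : Fin n → k)
    (i j : Fin n) : Prop :=
  ((D.e i / Nat.gcd (D.e i) (D.e j) : ℕ) : k) * (η j / θ j) =
    ((D.e j / Nat.gcd (D.e i) (D.e j) : ℕ) : k) * (η i / θ i)

/-- The coordinates in the set `S` are different from `∞` and pairwise not linked. -/
def Degeneration.Free (D : Degeneration K n) {k : Type} [Field k] (η θ : Fin n → k)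
    (S : Finset (Fin n)) : Prop :=
  (∀ i ∈ S, θ i ≠ 0) ∧ ∀ i ∈ S, ∀ j ∈ S, i ≠ j → ¬ D.Linked η θ i j

/-- The degeneration is in linear position over `k₀`: at each point over an
extension `k` of `k₀`, for each set `W` of algebraically independent coordinates
`y_i = η_i / θ_i` there is a set `S` of coordinates different from `∞`, pairwise not linked, with
`n + |W| ≤ m + |S|`. -/
def Degeneration.PositionOver (D : Degeneration K n) (m : ℕ) (k₀ : Type) [CommRing k₀]
    (ρ : 𝓞 K →+* k₀) : Prop :=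
  ∀ (k : Type) [Field k] [Algebra k₀ k] (ξ ζ : Fin D.s → k) (η θ : Fin n → k),
    D.OnGraph ((algebraMap k₀ k).comp ρ) ξ ζ η θ →
    ∀ W : Finset (Fin n), AlgebraicIndependent k₀ (fun i : W => η i / θ i) →
      ∃ S : Finset (Fin n), D.Free η θ S ∧ n + W.card ≤ m + S.card

theorem map_eval {R k k' : Type} [CommRing R] [CommRing k] [CommRing k'] {s : ℕ}
    (F : MultiForm R s) (π : R →+* k) (f : k →+* k') (ξ ζ : Fin s → k) :
    f (F.eval π ξ ζ) = F.eval (f.comp π) (fun i => f (ξ i)) (fun i => f (ζ i)) := by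
  unfold MultiForm.eval
  rw [map_sum]
  refine Finset.sum_congr rfl fun e _ => ?_
  rw [map_mul, map_prod]
  congr 1
  refine Finset.prod_congr rfl fun i _ => ?_
  rw [map_mul, map_pow, map_pow]

theorem eval_pi {ι R : Type} {k : ι → Type} [∀ v, CommRing (k v)] [CommRing R] {s : ℕ}
    (G : MultiForm R s) (Φ : R →+* ∀ v, k v) (ξ ζ : Fin s → ∀ v, k v) (v : ι) :
    (G.eval Φ ξ ζ) v =
      G.eval ((Pi.evalRingHom k v).comp Φ) (fun j => ξ j v) (fun j => ζ j v) :=
  map_eval G Φ (Pi.evalRingHom k v) ξ ζ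

section ultra
variable {ι : Type} [Infinite ι] (k : ι → Type) [∀ v, Field (k v)]

/-- the functions which vanish at almost all indices -/
def nul : Ideal (∀ v, k v) where
  carrier := {f | ∀ᶠ v in (hyperfilter ι : Filter ι), f v = 0}
  add_mem' := by
    intro f g hf hg
    filter_upwards [hf, hg] with v h1 h2
    rw [Pi.add_apply, h1, h2, add_zero]
  zero_mem' := Filter.Eventually.of_forall fun _ => rfl
  smul_mem' := by
    intro c f hf
    filter_upwards [hf] with v h1
    rw [smul_eq_mul, Pi.mul_apply, h1, mul_zero]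

theorem mem_nul (f : ∀ v, k v) : f ∈ nul k ↔ ∀ᶠ v in (hyperfilter ι : Filter ι), f v = 0 := Iff.rfl

theorem nul_max : (nul k).IsMaximal := by
  rw [Ideal.isMaximal_iff]
  refine ⟨?_, ?_⟩
  · intro h
    obtain ⟨v, hv⟩ := Filter.Eventually.exists ((mem_nul k _).1 h)
    exact one_ne_zero hv
  · intro I x hJI hx hxI
    have hx' : ∀ᶠ v in (hyperfilter ι : Filter ι), x v ≠ 0 :=
      Ultrafilter.eventually_not.2 hx
    have h1 : (1 - x * fun v => (x v)⁻¹) ∈ nul k := by
      rw [mem_nul]
      filter_upwards [hx'] with v hv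
      rw [Pi.sub_apply, Pi.mul_apply, Pi.one_apply, mul_inv_cancel₀ hv, sub_self]
    have h2 : (x * fun v => (x v)⁻¹) ∈ I := I.mul_mem_right _ hxI
    have h3 := I.add_mem (hJI h1) h2
    rwa [sub_add_cancel] at h3

/-- the ultraproduct -/
theorem exists_ultra : ∃ (F : Type) (_ : Field F) (mk : (∀ v, k v) →+* F),
    ∀ f, mk f = 0 ↔ ∀ᶠ v in (hyperfilter ι : Filter ι), f v = 0 := by
  have hmax := nul_max k
  exact ⟨(∀ v, k v) ⧸ nul k, Ideal.Quotient.field (nul k), Ideal.Quotient.mk (nul k),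
    fun f => Ideal.Quotient.eq_zero_iff_mem⟩

end ultra

theorem exists_alg {R K F : Type} [CommRing R] [IsDomain R] [Field K] [Algebra R K]
    [IsFractionRing R K] [Field F] (g : R →+* F) (hg : Function.Injective g) :
    ∃ _ : Algebra K F, (algebraMap K F).comp (algebraMap R K) = g := by
  refine ⟨(IsFractionRing.lift hg).toAlgebra, ?_⟩
  ext c
  exact IsFractionRing.lift_algebraMap hg c

theorem spread {K : Type} [Field K] [NumberField K] {n m : ℕ} (D : Degeneration K n)
    (hD : D.PositionOver m K (algebraMap (𝓞 K) K)) :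
    {v : HeightOneSpectrum (𝓞 K) |
      ¬ D.PositionOver m (𝓞 K ⧸ v.asIdeal) (Ideal.Quotient.mk v.asIdeal)}.Finite := by
  classical
  let Bad : Finset (Fin n) → Set (HeightOneSpectrum (𝓞 K)) := fun W =>
    {v | ∃ (k : Type) (_ : Field k) (_ : Algebra (𝓞 K ⧸ v.asIdeal) k) (ξ ζ : Fin D.s → k)
      (η θ : Fin n → k),
      D.OnGraph ((algebraMap (𝓞 K ⧸ v.asIdeal) k).comp (Ideal.Quotient.mk v.asIdeal)) ξ ζ η θ ∧
      AlgebraicIndependent (𝓞 K ⧸ v.asIdeal) (fun i : W => η i / θ i) ∧
      ∀ S, D.Free η θ S → ¬ (n + W.card ≤ m + S.card)}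
  have hsub : {v : HeightOneSpectrum (𝓞 K) |
      ¬ D.PositionOver m (𝓞 K ⧸ v.asIdeal) (Ideal.Quotient.mk v.asIdeal)} ⊆ ⋃ W, Bad W := by
    intro v hv
    have hv' : ¬ D.PositionOver m (𝓞 K ⧸ v.asIdeal) (Ideal.Quotient.mk v.asIdeal) := hv
    unfold Degeneration.PositionOver at hv'
    push Not at hv'
    obtain ⟨k, fk, ak, ξ, ζ, η, θ, hg, W, hW, hS⟩ := hv'
    exact Set.mem_iUnion.2 ⟨W, k, fk, ak, ξ, ζ, η, θ, hg, hW, fun S h => not_le.2 (hS S h)⟩
  refine (Set.finite_iUnion fun W => ?_).subset hsub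
  by_contra hinf
  have hI : Infinite (Bad W) := Set.infinite_coe_iff.2 hinf
  choose k fk ak ξ ζ η θ hg hind hS using fun v : Bad W => v.2
  obtain ⟨F, fF, mk, hmk0⟩ := exists_ultra k
  have hmkeq : ∀ f g, (∀ᶠ v in (hyperfilter (Bad W) : Filter (Bad W)), f v = g v) →
      mk f = mk g := by
    intro f g h
    rw [← sub_eq_zero, ← map_sub, hmk0]
    filter_upwards [h] with v hv
    rw [Pi.sub_apply, hv, sub_self]
  have hdiv : ∀ f g : ∀ v, k v, mk (fun v => f v / g v) = mk f / mk g := by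
    intro f g
    by_cases hg0 : mk g = 0
    · rw [hg0, div_zero, hmk0]
      filter_upwards [(hmk0 g).1 hg0] with v hv
      rw [hv, div_zero]
    · rw [eq_div_iff hg0, ← map_mul]
      apply hmkeq
      have h1 : ∀ᶠ v in (hyperfilter (Bad W) : Filter (Bad W)), g v ≠ 0 :=
        Ultrafilter.eventually_not.2 fun h => hg0 ((hmk0 g).2 h)
      filter_upwards [h1] with v hv
      rw [Pi.mul_apply, div_mul_cancel₀ _ hv]
  -- the homomorphism from the integers of `K`
  let φ : ∀ v : Bad W, 𝓞 K →+* k v := fun v =>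
    (algebraMap (𝓞 K ⧸ v.1.asIdeal) (k v)).comp (Ideal.Quotient.mk v.1.asIdeal)
  let Φ : 𝓞 K →+* ∀ v, k v := RingHom.pi φ
  have hφ0 : ∀ (v : Bad W) (c : 𝓞 K), φ v c = 0 → c ∈ v.1.asIdeal := by
    intro v c hc
    have hmx : v.1.asIdeal.IsMaximal := v.1.isMaximal
    let _ := Ideal.Quotient.field v.1.asIdeal
    have h1 : Ideal.Quotient.mk v.1.asIdeal c = 0 :=
      (map_eq_zero (algebraMap (𝓞 K ⧸ v.1.asIdeal) (k v))).1 hc
    exact Ideal.Quotient.eq_zero_iff_mem.1 h1
  have hfin : ∀ c : 𝓞 K, c ≠ 0 →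
      ¬ ∀ᶠ v in (hyperfilter (Bad W) : Filter (Bad W)), c ∈ v.1.asIdeal := by
    intro c hc h
    refine Filter.notMem_hyperfilter_of_finite ?_ h
    have h1 : {v : HeightOneSpectrum (𝓞 K) | v.asIdeal ∣ Ideal.span {c}}.Finite :=
      Ideal.finite_factors (by
        intro h0
        exact hc (Ideal.span_singleton_eq_bot.1 h0))
    refine (h1.preimage (f := fun v : Bad W => v.1) Subtype.val_injective.injOn).subset ?_
    intro v hv
    exact Ideal.dvd_span_singleton.2 hv
  have hinj : Function.Injective (mk.comp Φ) := by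
    rw [injective_iff_map_eq_zero]
    intro c hc
    by_contra hc0
    refine hfin c hc0 ?_
    filter_upwards [(hmk0 (Φ c)).1 hc] with v hv
    exact hφ0 v c hv
  obtain ⟨aF, halg⟩ := exists_alg (K := K) (mk.comp Φ) hinj
  have heval : ∀ (G : MultiForm (𝓞 K)[X] D.s),
      G.eval (((algebraMap K F).comp (algebraMap (𝓞 K) K)).comp
        (evalRingHom D.b)) (fun j => mk fun v => ξ v j) (fun j => mk fun v => ζ v j) =
      mk (fun v => G.eval ((φ v).comp (evalRingHom D.b)) (ξ v) (ζ v)) := by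
    intro G
    have h1 := map_eval G (Φ.comp (evalRingHom D.b)) mk (fun j => fun v => ξ v j)
      (fun j => fun v => ζ v j)
    have h2 : G.eval (Φ.comp (evalRingHom D.b)) (fun j => fun v => ξ v j)
        (fun j => fun v => ζ v j) =
        fun v => G.eval ((φ v).comp (evalRingHom D.b)) (ξ v) (ζ v) := by
      funext v
      have h3 : (Pi.evalRingHom k v).comp (Φ.comp (evalRingHom D.b)) =
          (φ v).comp (evalRingHom D.b) := RingHom.ext fun x => rfl
      rw [eval_pi, h3]
    rw [halg, RingHom.comp_assoc, ← h1, h2]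
  obtain ⟨S, ⟨hS1, hS2⟩, hcount⟩ := hD F (fun j => mk fun v => ξ v j)
    (fun j => mk fun v => ζ v j) (fun i => mk fun v => η v i) (fun i => mk fun v => θ v i)
    ⟨fun j => by
      by_contra hcon
      push Not at hcon
      obtain ⟨v, h1, h2⟩ := (((hmk0 _).1 hcon.1).and ((hmk0 _).1 hcon.2)).exists
      rcases (hg v).1 j with h | h
      · exact h h1
      · exact h h2, fun i => by
      by_contra hcon
      push Not at hcon
      obtain ⟨v, h1, h2⟩ := (((hmk0 _).1 hcon.1).and ((hmk0 _).1 hcon.2)).exists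
      rcases (hg v).2.1 i with h | h
      · exact h h1
      · exact h h2, fun t => by
      rw [heval, hmk0]
      exact Filter.Eventually.of_forall fun v => (hg v).2.2.1 t, fun i => by
      rw [heval, heval, ← map_mul, ← map_mul]
      apply hmkeq
      exact Filter.Eventually.of_forall fun v => (hg v).2.2.2 i⟩ W (by
      have h0 : AlgebraicIndependent ℤ (fun i : W => (mk fun v => η v i) / (mk fun v => θ v i)) := by
        rw [algebraicIndependent_iff]
        intro Q hQ
        by_contra hQ0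
        obtain ⟨d, hd⟩ := MvPolynomial.ne_zero_iff.1 hQ0
        refine hfin (Q.coeff d : ℤ) (by exact_mod_cast hd) ?_
        have e1 : (fun i : W => (mk fun v => η v i) / (mk fun v => θ v i)) =
            fun i : W => mk fun v => η v i / θ v i := by
          funext i
          exact (hdiv _ _).symm
        rw [e1] at hQ
        have e2 : MvPolynomial.aeval (fun i : W => mk fun v => η v i / θ v i) Q =
            mk (MvPolynomial.aeval (fun (i : W) v => η v i / θ v i) Q) := by
          have h5 := MvPolynomial.map_aeval (fun (i : W) v => η v i / θ v i) mk Q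
          rw [h5, MvPolynomial.aeval_def, MvPolynomial.coe_eval₂Hom]
          congr 1
          exact RingHom.ext_int _ _
        rw [e2, hmk0] at hQ
        filter_upwards [hQ] with v hv
        have e3 : (MvPolynomial.aeval (fun (i : W) v => η v i / θ v i) Q) v =
            MvPolynomial.aeval (fun i : W => η v i / θ v i) Q := by
          have h5 := MvPolynomial.map_aeval (fun (i : W) v => η v i / θ v i)
            (Pi.evalRingHom k v) Q
          have h6 : (Pi.evalRingHom k v) ((MvPolynomial.aeval (fun (i : W) v => η v i / θ v i)) Q) =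
            (MvPolynomial.aeval (fun (i : W) v => η v i / θ v i) Q) v := rfl
          rw [← h6, h5, MvPolynomial.aeval_def, MvPolynomial.coe_eval₂Hom]
          congr 1
        rw [e3] at hv
        have h7 := hind v
        rw [algebraicIndependent_iff] at h7
        have h8 := h7 (MvPolynomial.map (Int.castRingHom (𝓞 K ⧸ v.1.asIdeal)) Q) (by
          rw [← hv, MvPolynomial.aeval_def, MvPolynomial.eval₂_map, MvPolynomial.aeval_def]
          congr 1
          exact RingHom.ext_int _ _)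
        have h9 := congrArg (MvPolynomial.coeff d) h8
        rw [MvPolynomial.coeff_map, MvPolynomial.coeff_zero, eq_intCast] at h9
        have h10 : Ideal.Quotient.mk v.1.asIdeal ((Q.coeff d : ℤ) : 𝓞 K) = 0 := by
          rw [map_intCast]
          exact h9
        exact Ideal.Quotient.eq_zero_iff_mem.1 h10
      have halgZ : Algebra.IsAlgebraic ℤ K :=
        (IsFractionRing.comap_isAlgebraic_iff (A := ℤ) (K := ℚ) (C := K)).2 inferInstance
      exact h0.extendScalars K)
  have hfree : ∀ᶠ v in (hyperfilter (Bad W) : Filter (Bad W)), D.Free (η v) (θ v) S := by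
    have h1 : ∀ᶠ v in (hyperfilter (Bad W) : Filter (Bad W)), ∀ i ∈ S, θ v i ≠ 0 := by
      rw [Filter.eventually_all_finset]
      intro i hi
      exact Ultrafilter.eventually_not.2 fun h => hS1 i hi ((hmk0 _).2 h)
    have h2 : ∀ᶠ v in (hyperfilter (Bad W) : Filter (Bad W)), ∀ i ∈ S, ∀ j ∈ S, i ≠ j →
        ¬ D.Linked (η v) (θ v) i j := by
      rw [Filter.eventually_all_finset]
      intro i hi
      rw [Filter.eventually_all_finset]
      intro j hj
      by_cases hij : i = j
      · exact Filter.Eventually.of_forall fun v h => absurd hij h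
      · have h3 : ∀ᶠ v in (hyperfilter (Bad W) : Filter (Bad W)),
            ¬ D.Linked (η v) (θ v) i j := by
          refine Ultrafilter.eventually_not.2 fun h => hS2 i hi j hj hij ?_
          unfold Degeneration.Linked
          rw [← hdiv, ← hdiv, ← map_natCast mk, ← map_natCast mk, ← map_mul, ← map_mul]
          apply hmkeq
          filter_upwards [h] with v hv
          exact hv
        filter_upwards [h3] with v hv _
        exact hv
    filter_upwards [h1, h2] with v h3 h4
    exact ⟨h3, h4⟩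
  obtain ⟨v, hv⟩ := hfree.exists
  exact hS v S hv hcount

/-- the form as in the helper files -/
def toForm {R : Type} {s : ℕ} (F : MultiForm R s) :
    Pool.Agent.U854.SA.Form R (Fin s) := ⟨F.deg, F.coeff⟩

theorem eval_scale {R k : Type} [CommRing R] [CommRing k] {s : ℕ}
    (F : MultiForm R s) (π : R →+* k) (l a b : Fin s → k) :
    F.eval π (fun i => l i * a i) (fun i => l i * b i) = F.eval π a b * ∏ i, l i ^ F.deg i :=
  Pool.Agent.U854.SA.Form.eval_scale (toForm F) π l a b

theorem main_pt {K : Type} [Field K] [NumberField K] {n m : ℕ} (σ : K →+* ℂ)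
    (D : Degeneration K n) (v : HeightOneSpectrum (𝓞 K)) {p : ℕ} (hp : p.Prime)
    (hpv : (p : 𝓞 K) ∈ v.asIdeal)
    (hD : D.PositionOver m (𝓞 K ⧸ v.asIdeal) (Ideal.Quotient.mk v.asIdeal)) (a : K)
    (ha0 : aeval a D.P ≠ 0) (ha : v.valuation K (a - D.b) < 1)
    (haP : v.valuation K (aeval a D.P) < 1)
    (ha' : v.valuation K (aeval a D.P) ^ (D.h * (p - 1)) < v.valuation K p)
    {r : ℕ} (Z : SpecialVariety n r) {x : Fin n → ℂ} (hxX : x ∈ D.member σ a) (hxZ : x ∈ Z.locus)
    (W : Finset (Fin n)) (hW : AlgebraicIndependent ℚ (fun i : W => x i)) :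
    n + W.card ≤ m + r := by
  classical
  obtain ⟨ξ, ζ, hξζ, hH, hx⟩ := hxX
  set ι := spec σ a with hι
  have hω0 : ∀ i, (D.ω i : K) ≠ 0 := by
    intro i h
    obtain ⟨r', hr', h'⟩ := D.root i
    have h2 : D.ω i = 0 := by exact_mod_cast h
    rw [h2, zero_pow hr'.ne'] at h'
    exact zero_ne_one h'
  set δ := σ (aeval a D.P) with hδ
  have hδC : δ ≠ 0 := (map_ne_zero σ).2 ha0
  have hc0 : ∀ i, (D.ω i : K) / (aeval a D.P) ^ D.e i ≠ 0 := fun i =>
    div_ne_zero (hω0 i) (pow_ne_zero _ ha0)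
  let y : Fin n → ℂ := fun i => (D.N i).eval ι ξ ζ / (D.M i).eval ι ξ ζ
  have hxy : ∀ i, x i = σ (D.ω i) / δ ^ D.e i * (1 + δ ^ D.h * y i) := fun i => (hx i).2
  -- the coordinates `y`
  have hWy : AlgebraicIndependent ℚ (fun i : W => y i) := by
    let _ : Algebra K ℂ := σ.toAlgebra
    have hKx : AlgebraicIndependent K (fun i : W => x i) := hW.extendScalars K
    have hKy : AlgebraicIndependent K (fun i : W => y i) :=
      Pool.Agent.N135.ZO.indep_affine (fun i : W => (D.ω i : K) / (aeval a D.P) ^ D.e i)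
        (fun i : W => (D.ω i : K) / (aeval a D.P) ^ D.e i * (aeval a D.P) ^ D.h)
        (fun i => mul_ne_zero (hc0 i) (pow_ne_zero _ ha0))
        (fun i => by
          have e1 : (algebraMap K ℂ) = σ := rfl
          rw [hxy i, e1, map_mul, map_div₀, map_pow, map_pow]
          ring) hKx
    exact hKy.restrictScalars (algebraMap ℚ K).injective
  let a₁ : Fin D.s ⊕ Fin n → ℂ := Sum.elim ξ (fun i => (D.N i).eval ι ξ ζ)
  let b₁ : Fin D.s ⊕ Fin n → ℂ := Sum.elim ζ (fun i => (D.M i).eval ι ξ ζ)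
  have hab : ∀ i, a₁ i ≠ 0 ∨ b₁ i ≠ 0 := by
    rintro (j | i)
    · exact hξζ j
    · exact Or.inr (hx i).1
  let W₁ : Finset (Fin D.s ⊕ Fin n) := W.map ⟨Sum.inr, Sum.inr_injective⟩
  have hW₁ : AlgebraicIndependent ℚ (fun i : W₁ => a₁ i / b₁ i) := by
    have hex : ∀ i : W₁, ∃ j : W, (Sum.inr (j : Fin n) : Fin D.s ⊕ Fin n) = i := by
      rintro ⟨i, hi⟩
      obtain ⟨j, hj, hij⟩ := Finset.mem_map.1 hi
      exact ⟨⟨j, hj⟩, hij⟩
    choose f hf using hex
    have hfi : Function.Injective f := by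
      intro i i' h
      apply Subtype.ext
      rw [← hf i, ← hf i', h]
    have h1 := hWy.comp f hfi
    have e : (fun i : W₁ => a₁ i / b₁ i) = (fun i : W => y i) ∘ f := by
      funext i
      rw [← hf i]
      rfl
    rw [e]
    exact h1
  obtain ⟨V, hA1, hA2, -, π₀, k', hk, hkA, res, l, ξ', ζ', hπ₀, hresπ₀, hres, hl, hξ', hζ', hne,
    hind⟩ := Pool.Agent.U854.SA.place_res σ v hp hpv hab W₁ hW₁
  have hpV : V.valuation (p : ℂ) < 1 := by
    have := (hA2 (p : 𝓞 K)).2 hpv
    simpa using this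
  have hpK : (p : K) ≠ 0 := by exact_mod_cast hp.ne_zero
  have hpC : (p : ℂ) ≠ 0 := by exact_mod_cast hp.ne_zero
  have hδV : V.valuation δ < 1 := by
    have h3 := Pool.Agent.N135.ZO.val_pow_lt hA1 hA2 (x := aeval a D.P) (y := (1 : K)) one_ne_zero
      (by rw [map_one]; exact haP)
    rwa [map_one, map_one] at h3
  have hβV : V.valuation (σ (a - D.b)) < 1 := by
    have h3 := Pool.Agent.N135.ZO.val_pow_lt hA1 hA2 (x := a - D.b) (y := (1 : K)) one_ne_zero
      (by rw [map_one]; exact ha)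
    rwa [map_one, map_one] at h3
  have hβm : σ (a - D.b) ∈ V := (V.valuation_le_one_iff _).1 hβV.le
  have hbV : ((π₀ D.b : V) : ℂ) = σ D.b := RingHom.congr_fun hπ₀ D.b
  have haV : σ a ∈ V := by
    have h3 : σ a = ((π₀ D.b : V) : ℂ) + σ (a - D.b) := by
      rw [hbV, map_sub]
      ring
    rw [h3]
    exact add_mem (π₀ D.b).2 hβm
  let aV : V := ⟨σ a, haV⟩
  let π : (𝓞 K)[X] →+* V := eval₂RingHom π₀ aV
  have hπ : V.subtype.comp π = ι := by
    refine Polynomial.ringHom_ext (fun c => ?_) ?_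
    · show V.subtype (eval₂ π₀ aV (C c)) = eval₂ (σ.comp (algebraMap (𝓞 K) K)) (σ a) (C c)
      rw [eval₂_C, eval₂_C]
      exact RingHom.congr_fun hπ₀ c
    · show V.subtype (eval₂ π₀ aV X) = eval₂ (σ.comp (algebraMap (𝓞 K) K)) (σ a) X
      rw [eval₂_X, eval₂_X]
      rfl
  have hresπ : ((algebraMap (𝓞 K ⧸ v.asIdeal) k').comp (Ideal.Quotient.mk v.asIdeal)).comp
      (evalRingHom D.b) = res.comp π := by
    rw [hresπ₀]
    refine Polynomial.ringHom_ext (fun c => ?_) ?_
    · show res (π₀ (eval D.b (C c))) = res (eval₂ π₀ aV (C c))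
      rw [eval₂_C, eval_C]
    · show res (π₀ (eval D.b X)) = res (eval₂ π₀ aV X)
      rw [eval₂_X, eval_X, eq_comm, ← sub_eq_zero, ← map_sub, hres]
      have h3 : ((aV - π₀ D.b : V) : ℂ) = σ (a - D.b) := by
        show σ a - ((π₀ D.b : V) : ℂ) = σ (a - D.b)
        rw [hbV, map_sub]
      rw [h3]
      exact hβV
  -- the values of the forms at the normalized coordinates
  have hVal : ∀ (G : MultiForm (𝓞 K)[X] D.s),
      ((G.eval π (fun j => ξ' (Sum.inl j)) (fun j => ζ' (Sum.inl j)) : V) : ℂ) =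
        G.eval ι ξ ζ * ∏ j, l (Sum.inl j) ^ G.deg j := by
    intro G
    have h3 := map_eval G π V.subtype (fun j => ξ' (Sum.inl j)) (fun j => ζ' (Sum.inl j))
    have h5 : (fun j => V.subtype (ξ' (Sum.inl j))) = fun j => l (Sum.inl j) * ξ j :=
      funext fun j => hξ' (Sum.inl j)
    have h6 : (fun j => V.subtype (ζ' (Sum.inl j))) = fun j => l (Sum.inl j) * ζ j :=
      funext fun j => hζ' (Sum.inl j)
    rw [hπ, h5, h6, eval_scale] at h3
    exact h3
  have hRes : ∀ (G : MultiForm (𝓞 K)[X] D.s),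
      res (G.eval π (fun j => ξ' (Sum.inl j)) (fun j => ζ' (Sum.inl j))) =
        G.eval (((algebraMap (𝓞 K ⧸ v.asIdeal) k').comp (Ideal.Quotient.mk v.asIdeal)).comp
          (evalRingHom D.b)) (fun j => res (ξ' (Sum.inl j))) (fun j => res (ζ' (Sum.inl j))) := by
    intro G
    rw [hresπ]
    exact map_eval G π res _ _
  have hgraph : D.OnGraph ((algebraMap (𝓞 K ⧸ v.asIdeal) k').comp (Ideal.Quotient.mk v.asIdeal))
      (fun j => res (ξ' (Sum.inl j)))
      (fun j => res (ζ' (Sum.inl j))) (fun i => res (ξ' (Sum.inr i)))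
      (fun i => res (ζ' (Sum.inr i))) := by
    refine ⟨fun j => hne (Sum.inl j), fun i => hne (Sum.inr i), fun t => ?_, fun i => ?_⟩
    · rw [← hRes]
      have h2 : (D.H t).eval π (fun j => ξ' (Sum.inl j)) (fun j => ζ' (Sum.inl j)) = 0 := by
        apply Subtype.ext
        rw [hVal, hH t, zero_mul]
        rfl
      rw [h2, map_zero]
    · rw [← hRes, ← hRes, ← map_mul, ← map_mul]
      congr 1
      apply Subtype.ext
      push_cast
      rw [hVal, hVal, D.deg_eq i]
      have e1 : (ξ' (Sum.inr i) : ℂ) = l (Sum.inr i) * (D.N i).eval ι ξ ζ := hξ' (Sum.inr i)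
      have e2 : (ζ' (Sum.inr i) : ℂ) = l (Sum.inr i) * (D.M i).eval ι ξ ζ := hζ' (Sum.inr i)
      rw [e1, e2]
      ring
  have hind' : AlgebraicIndependent (𝓞 K ⧸ v.asIdeal)
      (fun i : W => res (ξ' (Sum.inr (i : Fin n))) / res (ζ' (Sum.inr (i : Fin n)))) :=
    hind.comp (fun i : W => (⟨Sum.inr (i : Fin n), Finset.mem_map.2 ⟨i, i.2, rfl⟩⟩ : W₁))
      (fun i i' h => Subtype.ext (Sum.inr_injective (congrArg Subtype.val h)))
  obtain ⟨S, ⟨hS1, hS2⟩, hcount⟩ := hD k' _ _ _ _ hgraph W hind'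
  have hunit : ∀ z : V, res z ≠ 0 → V.valuation (z : ℂ) = 1 := by
    intro z hz
    refine le_antisymm ((V.valuation_le_one_iff _).2 z.2) (not_lt.1 fun h => ?_)
    exact hz ((hres z).2 h)
  have hyq : ∀ i, y i = (ξ' (Sum.inr i) : ℂ) / (ζ' (Sum.inr i) : ℂ) := by
    intro i
    have e1 : (ξ' (Sum.inr i) : ℂ) = l (Sum.inr i) * (D.N i).eval ι ξ ζ := hξ' (Sum.inr i)
    have e2 : (ζ' (Sum.inr i) : ℂ) = l (Sum.inr i) * (D.M i).eval ι ξ ζ := hζ' (Sum.inr i)
    rw [e1, e2, mul_div_mul_left _ _ (hl _)]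
  have hy1 : ∀ i ∈ S, V.valuation (y i) ≤ 1 := by
    intro i hi
    rw [hyq, map_div₀, hunit _ (hS1 i hi), div_one]
    exact (V.valuation_le_one_iff _).2 (ξ' (Sum.inr i)).2
  have hνC : δ ^ D.h ≠ 0 := pow_ne_zero _ hδC
  have hνV : V.valuation (δ ^ D.h) ^ (p - 1) < V.valuation (p : ℂ) := by
    have h3 := Pool.Agent.N135.ZO.val_pow_lt hA1 hA2 (x := (aeval a D.P) ^ (D.h * (p - 1)))
      (y := (p : K)) hpK (by rw [map_pow]; exact ha')
    rw [map_pow, map_natCast] at h3
    rw [← map_pow, ← pow_mul]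
    exact h3
  have hδpos : 0 < V.valuation δ := zero_lt_iff.2 ((Valuation.ne_zero_iff _).2 hδC)
  have heV : ∀ i, V.valuation δ ^ D.e i < V.valuation (δ ^ D.h) := by
    intro i
    rw [map_pow]
    exact pow_lt_pow_right_of_lt_one₀ hδpos hδV (D.h_lt i)
  have hroot : ∀ i, ∃ r : ℕ, 0 < r ∧ σ (D.ω i) ^ r = 1 := by
    intro i
    obtain ⟨r', hr', h'⟩ := D.root i
    refine ⟨r', hr', ?_⟩
    have h4 : ((D.ω i : K)) ^ r' = 1 := by exact_mod_cast congrArg (algebraMap (𝓞 K) K) h'
    rw [← map_pow, h4, map_one]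
  have hxe : ∀ i, x i * δ ^ D.e i = σ (D.ω i) * (1 + δ ^ D.h * y i) := by
    intro i
    rw [hxy i]
    field_simp
  obtain ⟨z, hz⟩ := hxZ
  have he0 : ∀ i, 0 < D.e i := fun i => D.h_pos.trans (D.h_lt i)
  have hν1 : V.valuation (δ ^ D.h) < 1 := by
    rw [map_pow]
    exact pow_lt_one₀ zero_le hδV D.h_pos.ne'
  have hxlarge : ∀ i ∈ S, 1 < V.valuation (x i) := by
    intro i hi
    obtain ⟨r', hr', h'⟩ := hroot i
    have e1 : V.valuation (1 + δ ^ D.h * y i) = 1 := by
      refine Pool.Agent.U854.OP.val_one_add V ?_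
      rw [map_mul]
      exact (mul_le_of_le_one_right' (hy1 i hi)).trans_lt hν1
    have h3 := congrArg V.valuation (hxe i)
    rw [map_mul, map_pow, map_mul, e1, mul_one,
      Pool.Agent.W282.ZP.val_root_of_unity V hr' h'] at h3
    by_contra hcon
    have h4 : V.valuation δ ^ D.e i < 1 := pow_lt_one₀ zero_le hδV (he0 i).ne'
    have h5 : V.valuation (x i) * V.valuation δ ^ D.e i < 1 :=
      (mul_le_of_le_one_left' (not_lt.1 hcon)).trans_lt h4
    rw [h3] at h5
    exact lt_irrefl _ h5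
  have hnone : ∀ i ∈ S, Z.cls i ≠ none := by
    intro i hi hn
    have h3 := hxlarge i hi
    rw [(hz i).1 hn] at h3
    have h4 : V.valuation (jj (Z.cm i)) ≤ 1 := by
      have h5 := Pool.Agent.W282.ZP.val_le_of_integral (K := ℂ) V
        (singular_modulus_integral _ (Z.isCM i))
      simpa using h5
    exact absurd h3 (not_lt.2 h4)
  have hcard : S.card ≤ r := by
    refine Pool.Agent.U854.CL.card_le_classes Z.cls S hnone ?_
    intro i hi j hj hij hcls
    apply hS2 i hi j hj hij
    obtain ⟨l', hl'⟩ := Option.ne_none_iff_exists'.1 (hnone i hi)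
    obtain ⟨w, hw1, hw2⟩ := (hz i).2 l' hl'
    obtain ⟨w', hw1', hw2'⟩ := (hz j).2 l' (hcls ▸ hl')
    obtain ⟨A, hA, hrel⟩ := Pool.Agent.N135.ZO.rel_of_two (M := Z.mat i) (M' := Z.mat j)
      (z := z l') (Z.det_pos i) (Z.det_pos j) hw1 hw1'
    have hlaw := Pool.Agent.U854.CQ.near_law hp hpV hδC hδV hνC hνV (he0 i) (he0 j)
      (heV i) (heV j) (hroot i) (hroot j) (hy1 i hi) (hy1 j hj) (by rw [← hw2]; exact hxe i)
      (by rw [← hw2']; exact hxe j) hA hrel
    set a' := D.e i / Nat.gcd (D.e i) (D.e j) with ha'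
    set d' := D.e j / Nat.gcd (D.e i) (D.e j) with hd'
    have hζi : ((ζ' (Sum.inr i) : V) : ℂ) ≠ 0 := by
      rw [← V.valuation.ne_zero_iff, hunit _ (hS1 i hi)]
      exact one_ne_zero
    have hζj : ((ζ' (Sum.inr j) : V) : ℂ) ≠ 0 := by
      rw [← V.valuation.ne_zero_iff, hunit _ (hS1 j hj)]
      exact one_ne_zero
    have e2 : ((a' * ξ' (Sum.inr j) * ζ' (Sum.inr i) - d' * ξ' (Sum.inr i) * ζ' (Sum.inr j) : V) : ℂ) =
        ((a' : ℂ) * y j - (d' : ℂ) * y i) *
          (((ζ' (Sum.inr i) : V) : ℂ) * ((ζ' (Sum.inr j) : V) : ℂ)) := by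
      rw [hyq i, hyq j]
      push_cast
      field_simp
    have h0 : res (a' * ξ' (Sum.inr j) * ζ' (Sum.inr i) - d' * ξ' (Sum.inr i) * ζ' (Sum.inr j)) =
        0 := by
      rw [hres, e2, map_mul, map_mul, hunit _ (hS1 i hi), hunit _ (hS1 j hj), mul_one, mul_one]
      exact hlaw
    rw [map_sub, map_mul, map_mul, map_mul, map_mul, map_natCast, map_natCast] at h0
    show (a' : k') * (res (ξ' (Sum.inr j)) / res (ζ' (Sum.inr j))) =
      (d' : k') * (res (ξ' (Sum.inr i)) / res (ζ' (Sum.inr i)))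
    have g1 := hS1 i hi
    have g2 := hS1 j hj
    rw [← mul_div_assoc, ← mul_div_assoc, div_eq_div_iff g2 g1]
    linear_combination h0
  omega

theorem of_pt {n m : ℕ} (X : Set (Fin n → ℂ))
    (hpt : ∀ (r : ℕ) (Z : SpecialVariety n r), ∀ x ∈ X ∩ Z.locus, ∀ W : Finset (Fin n),
      AlgebraicIndependent ℚ (fun i : W => x i) → n + W.card ≤ m + r) : NoAtypical X m := by
  intro r Z
  refine ⟨hpt r Z, ?_⟩
  intro A hA hcl hprime
  obtain ⟨x, hxA, W, hW, hdim⟩ := Pool.Agent.W466.ZC.generic_dim ℚ A hprime hcl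
  have h := hpt r Z x (hA hxA) W hW
  calc (n : Cardinal) + Pool.Agent.W282.ZP.zdim A ≤ (n : Cardinal) + (W.card : Cardinal) := by
        gcongr
    _ = ((n + W.card : ℕ) : Cardinal) := by push_cast; rfl
    _ ≤ ((m + r : ℕ) : Cardinal) := by exact_mod_cast h
    _ = (m : Cardinal) + (r : Cardinal) := by push_cast; rfl

theorem Degeneration.Position.over {D : Degeneration K n} [CharZero K] {m : ℕ}
    (h : D.Position m) : D.PositionOver m K (algebraMap (𝓞 K) K) := by
  intro k _ _ ξ ζ η θ hgr W hW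
  obtain ⟨S, h1, h2, h3⟩ := h k ξ ζ η θ hgr W hW
  refine ⟨S, ⟨h1, fun i hi j hj hij hl => h2 i hi j hj hij ?_⟩, h3⟩
  have hk : CharZero k := charZero_of_injective_algebraMap (algebraMap K k).injective
  have hei : (D.e i : k) ≠ 0 := by exact_mod_cast (D.h_pos.trans (D.h_lt i)).ne'
  have hej : (D.e j : k) ≠ 0 := by exact_mod_cast (D.h_pos.trans (D.h_lt j)).ne'
  unfold Degeneration.Linked at hl
  set g := Nat.gcd (D.e i) (D.e j) with hg
  have e1 : ((g : ℕ) : k) * ((D.e i / g : ℕ) : k) = D.e i := by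
    exact_mod_cast congrArg (Nat.cast : ℕ → k) (Nat.mul_div_cancel' (Nat.gcd_dvd_left _ _))
  have e2 : ((g : ℕ) : k) * ((D.e j / g : ℕ) : k) = D.e j := by
    exact_mod_cast congrArg (Nat.cast : ℕ → k) (Nat.mul_div_cancel' (Nat.gcd_dvd_right _ _))
  rw [div_eq_div_iff hei hej, ← e1, ← e2]
  linear_combination (-(g : k)) * hl

theorem NoAtypical.mono {X Y : Set (Fin n → ℂ)} {m : ℕ} (h : NoAtypical Y m) (hXY : X ⊆ Y) :
    NoAtypical X m := by
  intro r Z
  obtain ⟨h1, h2⟩ := h r Z
  exact ⟨fun x hx => h1 x ⟨hXY hx.1, hx.2⟩,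
    fun A hA => h2 A (hA.trans (Set.inter_subset_inter_left _ hXY))⟩

variable [NumberField K]

theorem one_cusp (σ : K →+* ℂ) {m : ℕ} (D : Degeneration K n) (hD : D.Position m) :
    ∃ S : Set (HeightOneSpectrum (𝓞 K)), S.Finite ∧ ∀ a : K, aeval a D.P ≠ 0 →
      (∃ v ∉ S, v.valuation K (a - D.b) < 1) → NoAtypical (D.member σ a) m := by
  refine ⟨_, (spread D hD.over).union (fin_small (K := K) (Module.finrank ℚ K + 1)), ?_⟩
  rintro a ha0 ⟨v, hv, hva⟩
  rw [Set.mem_union, not_or] at hv
  obtain ⟨hv1, hv2⟩ := hv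
  obtain ⟨p, hp, hpv⟩ := exists_prime v
  have hpos : D.PositionOver m (𝓞 K ⧸ v.asIdeal) (Ideal.Quotient.mk v.asIdeal) := not_not.1 hv1
  have hpd : Module.finrank ℚ K + 1 < p := by
    by_contra hcon
    exact hv2 ⟨p, not_lt.1 hcon, hp, hpv⟩
  have haP := unif_lt v D.P D.isRoot hva
  exact of_pt _ fun r Z x hx W hW => main_pt σ D v hp hpv hpos a ha0 hva haP
    (near_p v hp hpv hpd haP D.h_pos) Z hx.1 hx.2 W hW

theorem zeros_finite (P : (𝓞 K)[X]) (hP : P ≠ 0) : {a : K | aeval a P = 0}.Finite := by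
  classical
  have h1 : P.map (algebraMap (𝓞 K) K) ≠ 0 := (Polynomial.map_ne_zero_iff
    (IsFractionRing.injective (𝓞 K) K)).2 hP
  refine ((P.map (algebraMap (𝓞 K) K)).roots.toFinset.finite_toSet).subset fun a ha => ?_
  have ha' : aeval a P = 0 := ha
  simp only [Finset.mem_coe, Multiset.mem_toFinset]
  rw [Polynomial.mem_roots h1, Polynomial.IsRoot.def, Polynomial.eval_map_algebraMap]
  exact ha'

theorem three_cusps (σ : K →+* ℂ) {m : ℕ} (X : K → Set (Fin n → ℂ))
    (D : Fin 3 → Degeneration K n) (hD : ∀ l, (D l).Position m)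
    (hb : Function.Injective fun l => (D l).b)
    (hX : ∀ l a, aeval a (D l).P ≠ 0 → X a ⊆ (D l).member σ a) :
    {a : K | ¬ NoAtypical (X a) m}.Finite := by
  choose S hS hS' using fun l => one_cusp σ (D l) (hD l)
  have hSf : (⋃ l, S l).Finite := Set.finite_iUnion hS
  refine ((Set.finite_iUnion fun l => zeros_finite (D l).P (D l).P_ne).union
    (three_points (⋃ l, S l) hSf (fun l => (D l).b) hb)).subset ?_
  intro a ha
  by_cases h0 : ∃ l, aeval a (D l).P = 0
  · exact Or.inl (Set.mem_iUnion.2 h0)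
  · push Not at h0
    right
    intro l
    refine ⟨?_, ?_⟩
    · rintro rfl
      apply h0 l
      have h1 := Polynomial.aeval_algebraMap_apply K (D l).b (D l).P
      have h2 : aeval (D l).b (D l).P = 0 := by
        rw [Polynomial.coe_aeval_eq_eval]
        exact (D l).isRoot
      rw [h2, map_zero] at h1
      exact h1
    · intro v hv
      by_contra hcon
      refine ha (((hS' l) a (h0 l) ⟨v, fun h => hv (Set.mem_iUnion.2 ⟨l, h⟩), not_le.1 hcon⟩).mono
        (hX l a (h0 l)))

theorem two_cusps (σ : K →+* ℂ) {m : ℕ} (X : K → Set (Fin n → ℂ))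
    (D : Fin 2 → Degeneration K n) (hD : ∀ l, (D l).Position m)
    (hb : Function.Injective fun l => (D l).b)
    (hX : ∀ l a, aeval a (D l).P ≠ 0 → X a ⊆ (D l).member σ a)
    (S₀ : Set (HeightOneSpectrum (𝓞 K))) (hS₀ : S₀.Finite) :
    {a : K | (∀ v ∉ S₀, v.valuation K a ≤ 1) ∧ ¬ NoAtypical (X a) m}.Finite := by
  choose S hS hS' using fun l => one_cusp σ (D l) (hD l)
  have hSf : (S₀ ∪ ⋃ l, S l).Finite := hS₀.union (Set.finite_iUnion hS)
  refine ((Set.finite_iUnion fun l => zeros_finite (D l).P (D l).P_ne).union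
    (two_points (S₀ ∪ ⋃ l, S l) hSf (fun l => (D l).b) hb)).subset ?_
  rintro a ⟨ha₀, ha⟩
  by_cases h0 : ∃ l, aeval a (D l).P = 0
  · exact Or.inl (Set.mem_iUnion.2 h0)
  · push Not at h0
    right
    refine ⟨fun v hv => ha₀ v fun h => hv (Or.inl h), fun l => ⟨?_, ?_⟩⟩
    · rintro rfl
      apply h0 l
      have h1 := Polynomial.aeval_algebraMap_apply K (D l).b (D l).P
      have h2 : aeval (D l).b (D l).P = 0 := by
        rw [Polynomial.coe_aeval_eq_eval]
        exact (D l).isRoot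
      rw [h2, map_zero] at h1
      exact h1
    · intro v hv
      by_contra hcon
      refine ha (((hS' l) a (h0 l) ⟨v, fun h => hv (Or.inr (Set.mem_iUnion.2 ⟨l, h⟩)),
        not_le.1 hcon⟩).mono (hX l a (h0 l)))

/-- the linear form `α ξ + β ζ` -/
def linForm {R : Type} (α β : R) : MultiForm R 1 :=
  ⟨fun _ => 1, fun e => if (e 0 : ℕ) = 1 then α else β⟩

theorem linForm_eval {R k : Type} [CommRing R] [CommRing k] (α β : R) (π : R →+* k)
    (ξ ζ : Fin 1 → k) : (linForm α β).eval π ξ ζ = π α * ξ 0 + π β * ζ 0 := by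
  have h := Pool.Agent.U854.SA.sum_prod (fun _ : Fin 1 => 1)
    (fun _ j => π (if j = 1 then α else β)) ξ ζ
  simp only [Fin.prod_univ_one, Finset.sum_range_succ, Finset.sum_range_zero] at h
  unfold MultiForm.eval linForm
  simp only [Fin.prod_univ_one]
  rw [h]
  simp
  ring

/-- the degeneration of `spaceCurve e (P a)` at a root `b` of `P` -/
noncomputable def spaceDeg (P : (𝓞 K)[X]) (hP : P ≠ 0) (b : 𝓞 K) (hb : P.eval b = 0)
    (e : Fin 3 → ℕ) (he : ∀ i, 1 < e i) : Degeneration K 3 where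
  s := 1
  T := Empty
  H := fun t => t.elim
  N := ![linForm (e 0 : (𝓞 K)[X]) 0, linForm 0 (e 1 : (𝓞 K)[X]),
    linForm (e 2 : (𝓞 K)[X]) (e 2 : (𝓞 K)[X])]
  M := ![linForm 0 1, linForm 1 0, linForm 1 (-2)]
  deg_eq := by
    intro i
    fin_cases i <;> rfl
  P := P
  P_ne := hP
  b := b
  isRoot := hb
  h := 1
  h_pos := one_pos
  e := e
  h_lt := he
  ω := fun _ => 1
  root := fun _ => ⟨1, one_pos, one_pow _⟩

omit [NumberField K] in
theorem space_member (σ : K →+* ℂ) (P : (𝓞 K)[X]) (hP : P ≠ 0) (b : 𝓞 K) (hb : P.eval b = 0)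
    (e : Fin 3 → ℕ) (he : ∀ i, 1 < e i) (a : K) (ha : aeval a P ≠ 0) :
    spaceCurve e (σ (aeval a P)) ⊆ (spaceDeg P hP b hb e he).member σ a := by
  rintro x ⟨t, ht0, ht2, h0, h1, h2⟩
  have hc : σ (aeval a P) ≠ 0 := (map_ne_zero σ).2 ha
  have ht2' : t - 2 ≠ 0 := sub_ne_zero.2 ht2
  refine ⟨fun _ => t, fun _ => 1, fun _ => Or.inr one_ne_zero, fun t => t.elim, ?_⟩
  intro i
  fin_cases i
  · refine ⟨?_, ?_⟩
    · show (linForm (0 : (𝓞 K)[X]) 1).eval (spec σ a) (fun _ => t) (fun _ => 1) ≠ 0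
      rw [linForm_eval]
      simp
    · show x 0 = σ ((1 : 𝓞 K) : K) / σ (aeval a P) ^ e 0 * (1 + σ (aeval a P) ^ 1 *
        ((linForm (e 0 : (𝓞 K)[X]) 0).eval (spec σ a) (fun _ => t) (fun _ => 1) /
          (linForm (0 : (𝓞 K)[X]) 1).eval (spec σ a) (fun _ => t) (fun _ => 1)))
      rw [linForm_eval, linForm_eval, h0]
      simp
      field_simp
  · refine ⟨?_, ?_⟩
    · show (linForm (1 : (𝓞 K)[X]) 0).eval (spec σ a) (fun _ => t) (fun _ => 1) ≠ 0
      rw [linForm_eval]
      simpa using ht0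
    · show x 1 = σ ((1 : 𝓞 K) : K) / σ (aeval a P) ^ e 1 * (1 + σ (aeval a P) ^ 1 *
        ((linForm (0 : (𝓞 K)[X]) (e 1 : (𝓞 K)[X])).eval (spec σ a) (fun _ => t) (fun _ => 1) /
          (linForm (1 : (𝓞 K)[X]) 0).eval (spec σ a) (fun _ => t) (fun _ => 1)))
      rw [linForm_eval, linForm_eval, h1]
      simp
      field_simp
  · refine ⟨?_, ?_⟩
    · show (linForm (1 : (𝓞 K)[X]) (-2)).eval (spec σ a) (fun _ => t) (fun _ => 1) ≠ 0
      rw [linForm_eval]
      have e3 : (1 : ℂ) * t + -2 * 1 = t - 2 := by ring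
      simp only [map_one, map_neg, map_ofNat, e3]
      exact ht2'
    · show x 2 = σ ((1 : 𝓞 K) : K) / σ (aeval a P) ^ e 2 * (1 + σ (aeval a P) ^ 1 *
        ((linForm (e 2 : (𝓞 K)[X]) (e 2 : (𝓞 K)[X])).eval (spec σ a) (fun _ => t) (fun _ => 1) /
          (linForm (1 : (𝓞 K)[X]) (-2)).eval (spec σ a) (fun _ => t) (fun _ => 1)))
      rw [linForm_eval, linForm_eval, h2]
      have e3 : (1 : ℂ) * t + -2 * 1 = t - 2 := by ring
      simp only [map_natCast, map_one, map_neg, map_ofNat, e3]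
      field_simp

theorem space_position (P : (𝓞 K)[X]) (hP : P ≠ 0) (b : 𝓞 K) (hb : P.eval b = 0)
    (e : Fin 3 → ℕ) (he : ∀ i, 1 < e i) : (spaceDeg P hP b hb e he).Position 1 := by
  classical
  intro k _ _ ξ₀ ζ₀ η θ hgr W hW
  change Fin 1 → k at ξ₀ ζ₀
  have hk : CharZero k := charZero_of_injective_algebraMap (algebraMap K k).injective
  obtain ⟨hnz, hne, -, hgr⟩ := hgr
  set π : (𝓞 K)[X] →+* k := ((algebraMap K k).comp (algebraMap (𝓞 K) K)).comp (evalRingHom b)
    with hπ
  obtain ⟨ξ, hξ⟩ : ∃ ξ, ξ = ξ₀ 0 := ⟨_, rfl⟩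
  obtain ⟨ζ, hζ⟩ : ∃ ζ, ζ = ζ₀ 0 := ⟨_, rfl⟩
  have hnz0 : ξ ≠ 0 ∨ ζ ≠ 0 := by rw [hξ, hζ]; exact hnz (0 : Fin 1)
  have g0 : η 0 * ζ = θ 0 * (e 0 * ξ) := by
    have h := hgr 0
    change η 0 * (linForm (0 : (𝓞 K)[X]) 1).eval π ξ₀ ζ₀ =
      θ 0 * (linForm (e 0 : (𝓞 K)[X]) 0).eval π ξ₀ ζ₀ at h
    rw [linForm_eval, linForm_eval, ← hξ, ← hζ] at h
    simpa using h
  have g1 : η 1 * ξ = θ 1 * (e 1 * ζ) := by
    have h := hgr 1
    change η 1 * (linForm (1 : (𝓞 K)[X]) 0).eval π ξ₀ ζ₀ =
      θ 1 * (linForm (0 : (𝓞 K)[X]) (e 1 : (𝓞 K)[X])).eval π ξ₀ ζ₀ at h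
    rw [linForm_eval, linForm_eval, ← hξ, ← hζ] at h
    simpa using h
  have g2 : η 2 * (ξ - 2 * ζ) = θ 2 * (e 2 * (ξ + ζ)) := by
    have h := hgr 2
    change η 2 * (linForm (1 : (𝓞 K)[X]) (-2)).eval π ξ₀ ζ₀ =
      θ 2 * (linForm (e 2 : (𝓞 K)[X]) (e 2 : (𝓞 K)[X])).eval π ξ₀ ζ₀ at h
    rw [linForm_eval, linForm_eval, ← hξ, ← hζ] at h
    simp only [map_natCast, map_one, map_neg, map_ofNat] at h
    linear_combination h
  have he0 : ∀ i, (e i : k) ≠ 0 := fun i => by
    have := he i
    exact_mod_cast (show e i ≠ 0 by omega)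
  -- finite coordinates
  have t0 : ζ ≠ 0 → θ 0 ≠ 0 ∧ η 0 / θ 0 / e 0 = ξ / ζ := by
    intro h
    have h1 : θ 0 ≠ 0 := by
      intro h1
      rw [h1, zero_mul] at g0
      rcases hne 0 with h2 | h2
      · exact (mul_ne_zero h2 h) g0
      · exact h2 h1
    refine ⟨h1, ?_⟩
    have h2 := he0 0
    field_simp
    linear_combination g0
  have t1 : ξ ≠ 0 → θ 1 ≠ 0 ∧ η 1 / θ 1 / e 1 = ζ / ξ := by
    intro h
    have h1 : θ 1 ≠ 0 := by
      intro h1
      rw [h1, zero_mul] at g1
      rcases hne 1 with h2 | h2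
      · exact (mul_ne_zero h2 h) g1
      · exact h2 h1
    refine ⟨h1, ?_⟩
    have h2 := he0 1
    field_simp
    linear_combination g1
  have t2 : ξ - 2 * ζ ≠ 0 → θ 2 ≠ 0 ∧ η 2 / θ 2 / e 2 = (ξ + ζ) / (ξ - 2 * ζ) := by
    intro h
    have h1 : θ 2 ≠ 0 := by
      intro h1
      rw [h1, zero_mul] at g2
      rcases hne 2 with h2 | h2
      · exact (mul_ne_zero h2 h) g2
      · exact h2 h1
    refine ⟨h1, ?_⟩
    have h2 := he0 2
    rw [div_div, div_eq_div_iff (mul_ne_zero h1 h2) h]
    linear_combination g2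
  -- distinct coordinates
  have c01 : ζ ≠ 0 → ξ ≠ 0 → ξ ^ 2 ≠ ζ ^ 2 → η 0 / θ 0 / e 0 ≠ η 1 / θ 1 / e 1 := by
    intro h1 h2 h3 h4
    rw [(t0 h1).2, (t1 h2).2, div_eq_div_iff h1 h2] at h4
    exact h3 (by linear_combination h4)
  have c02 : ζ ≠ 0 → ξ - 2 * ζ ≠ 0 → ξ ^ 2 - 3 * ξ * ζ - ζ ^ 2 ≠ 0 →
      η 0 / θ 0 / e 0 ≠ η 2 / θ 2 / e 2 := by
    intro h1 h2 h3 h4
    rw [(t0 h1).2, (t2 h2).2, div_eq_div_iff h1 h2] at h4
    exact h3 (by linear_combination h4)
  have c12 : ξ ≠ 0 → ξ - 2 * ζ ≠ 0 → ξ ^ 2 + 2 * ζ ^ 2 ≠ 0 →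
      η 1 / θ 1 / e 1 ≠ η 2 / θ 2 / e 2 := by
    intro h1 h2 h3 h4
    rw [(t1 h1).2, (t2 h2).2, div_eq_div_iff h1 h2] at h4
    exact h3 (by linear_combination (-1 : k) * h4)
  have hthree : (3 : k) ≠ 0 := three_ne_zero
  have htwo : (2 : k) ≠ 0 := two_ne_zero
  -- pairs
  have pair : ∀ i j : Fin 3, i ≠ j → θ i ≠ 0 → θ j ≠ 0 →
      η i / θ i / e i ≠ η j / θ j / e j →
      ∃ S : Finset (Fin 3), (∀ i ∈ S, θ i ≠ 0) ∧
        (∀ i ∈ S, ∀ j ∈ S, i ≠ j → η i / θ i / e i ≠ η j / θ j / e j) ∧ 3 + 0 ≤ 1 + S.card := by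
    intro i j hij h1 h2 h3
    refine ⟨{i, j}, ?_, ?_, ?_⟩
    · intro l hl
      rcases Finset.mem_insert.1 hl with h | h
      · rw [h]; exact h1
      · rw [Finset.mem_singleton.1 h]; exact h2
    · intro l hl l' hl' hll'
      rcases Finset.mem_insert.1 hl with h | h <;> rcases Finset.mem_insert.1 hl' with h' | h'
      · exact absurd (h.trans h'.symm) hll'
      · rw [h, Finset.mem_singleton.1 h']; exact h3
      · rw [Finset.mem_singleton.1 h, h']; exact h3.symm
      · exact absurd ((Finset.mem_singleton.1 h).trans (Finset.mem_singleton.1 h').symm) hll'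
    · rw [Finset.card_pair hij]
  have hcard := Pool.Agent.U854.CL.line_card (F := K) W (fun i => η i / θ i) (ξ / ζ)
    (fun i _ => by
      set A := Algebra.adjoin K {ξ / ζ} with hA
      have htA : ξ / ζ ∈ A := Algebra.subset_adjoin rfl
      have hnat : ∀ N : ℕ, (N : k) ∈ A := fun N => natCast_mem A N
      fin_cases i
      · by_cases h : ζ = 0
        · refine ⟨0, A.zero_mem, 1, A.one_mem, ?_⟩
          have hξ0 := hnz0.resolve_right (fun h' => h' h)
          have h1 : θ 0 = 0 := by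
            rw [h, mul_zero] at g0
            exact (mul_eq_zero.1 g0.symm).resolve_right (mul_ne_zero (he0 0) hξ0)
          show η 0 / θ 0 = 0 / 1
          rw [h1, div_zero, zero_div]
        · refine ⟨e 0 * (ξ / ζ), A.mul_mem (hnat _) htA, 1, A.one_mem, ?_⟩
          have h1 := (t0 h).2
          rw [div_eq_iff (he0 0)] at h1
          show η 0 / θ 0 = _
          rw [h1, div_one, mul_comm]
      · by_cases h : ξ = 0
        · refine ⟨0, A.zero_mem, 1, A.one_mem, ?_⟩
          have hζ0 := hnz0.resolve_left (fun h' => h' h)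
          have h1 : θ 1 = 0 := by
            rw [h, mul_zero] at g1
            exact (mul_eq_zero.1 g1.symm).resolve_right (mul_ne_zero (he0 1) hζ0)
          show η 1 / θ 1 = 0 / 1
          rw [h1, div_zero, zero_div]
        · refine ⟨e 1, hnat _, ξ / ζ, htA, ?_⟩
          have h1 := (t1 h).2
          rw [div_eq_iff (he0 1)] at h1
          show η 1 / θ 1 = _
          rw [h1, div_div_eq_mul_div]
          ring
      · by_cases h : ζ = 0
        · refine ⟨e 2, hnat _, 1, A.one_mem, ?_⟩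
          have hξ0 := hnz0.resolve_right (fun h' => h' h)
          have h1 : ξ - 2 * ζ ≠ 0 := by rw [h, mul_zero, sub_zero]; exact hξ0
          have h2 := (t2 h1).2
          rw [div_eq_iff (he0 2), h, mul_zero, sub_zero, add_zero, div_self hξ0, one_mul] at h2
          show η 2 / θ 2 = _
          rw [h2, div_one]
        · by_cases h1 : ξ - 2 * ζ = 0
          · refine ⟨0, A.zero_mem, 1, A.one_mem, ?_⟩
            have h2 : θ 2 = 0 := by
              rw [h1, mul_zero] at g2
              refine (mul_eq_zero.1 g2.symm).resolve_right (mul_ne_zero (he0 2) ?_)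
              have h3 : ξ + ζ = 3 * ζ := by linear_combination h1
              rw [h3]
              exact mul_ne_zero hthree h
            show η 2 / θ 2 = 0 / 1
            rw [h2, div_zero, zero_div]
          · refine ⟨e 2 * (ξ / ζ + 1), A.mul_mem (hnat _) (A.add_mem htA A.one_mem),
              ξ / ζ - 2, A.sub_mem htA (by exact_mod_cast hnat 2), ?_⟩
            have h2 := (t2 h1).2
            rw [div_eq_iff (he0 2)] at h2
            show η 2 / θ 2 = _
            have e5 : ξ / ζ + 1 = (ξ + ζ) / ζ := by field_simp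
            have e6 : ξ / ζ - 2 = (ξ - 2 * ζ) / ζ := by field_simp
            rw [h2, e5, e6, ← mul_div_assoc, div_div_div_cancel_right₀ h]
            ring) hW
  obtain ⟨hc1, hc2⟩ := hcard
  by_cases hW0 : W.card = 0
  · rw [hW0]
    by_cases hζ0 : ζ = 0
    · have hξ0 := hnz0.resolve_right (fun h' => h' hζ0)
      have h1 : ξ - 2 * ζ ≠ 0 := by rw [hζ0, mul_zero, sub_zero]; exact hξ0
      refine pair 1 2 (by decide) (t1 hξ0).1 (t2 h1).1 (c12 hξ0 h1 ?_)
      rw [hζ0]
      simpa using hξ0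
    · by_cases hξ0 : ξ = 0
      · have h1 : ξ - 2 * ζ ≠ 0 := by
          rw [hξ0, zero_sub]
          exact neg_ne_zero.2 (mul_ne_zero htwo hζ0)
        refine pair 0 2 (by decide) (t0 hζ0).1 (t2 h1).1 (c02 hζ0 h1 ?_)
        rw [hξ0]
        simpa using hζ0
      · by_cases hsq : ξ ^ 2 = ζ ^ 2
        · have h2 : (ξ - ζ) * (ξ + ζ) = 0 := by linear_combination hsq
          rcases mul_eq_zero.1 h2 with h3 | h3
          · have h4 : ξ = ζ := sub_eq_zero.1 h3
            have h1 : ξ - 2 * ζ ≠ 0 := by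
              rw [h4]
              have : ζ - 2 * ζ = -ζ := by ring
              rw [this]
              exact neg_ne_zero.2 hζ0
            refine pair 0 2 (by decide) (t0 hζ0).1 (t2 h1).1 (c02 hζ0 h1 ?_)
            have h5 : ξ ^ 2 - 3 * ξ * ζ - ζ ^ 2 = -(3 * ζ ^ 2) := by rw [h4]; ring
            rw [h5]
            exact neg_ne_zero.2 (mul_ne_zero hthree (pow_ne_zero _ hζ0))
          · have h4 : ξ = -ζ := by linear_combination h3
            have h1 : ξ - 2 * ζ ≠ 0 := by
              rw [h4]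
              have : -ζ - 2 * ζ = -(3 * ζ) := by ring
              rw [this]
              exact neg_ne_zero.2 (mul_ne_zero hthree hζ0)
            refine pair 0 2 (by decide) (t0 hζ0).1 (t2 h1).1 (c02 hζ0 h1 ?_)
            have h5 : ξ ^ 2 - 3 * ξ * ζ - ζ ^ 2 = 3 * ζ ^ 2 := by rw [h4]; ring
            rw [h5]
            exact mul_ne_zero hthree (pow_ne_zero _ hζ0)
        · exact pair 0 1 (by decide) (t0 hζ0).1 (t1 hξ0).1 (c01 hζ0 hξ0 hsq)
  · have hW1 : W.card = 1 := by omega
    have htr : Transcendental K (ξ / ζ) := fun h => hW0 (hc2 h)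
    have key : ∀ Q : K[X], Q ≠ 0 → aeval (ξ / ζ) Q ≠ 0 := fun Q hQ h =>
      hQ ((transcendental_iff.1 htr) Q h)
    have hζ0 : ζ ≠ 0 := by
      intro h
      apply htr
      rw [h, div_zero]
      exact isAlgebraic_zero
    have hξ0 : ξ ≠ 0 := by
      intro h
      apply htr
      rw [h, zero_div]
      exact isAlgebraic_zero
    have q : ∀ a₀ a₁ a₂ : K, (a₂ ≠ 0 ∨ a₁ ≠ 0) → algebraMap K k a₂ * ξ ^ 2 +
        algebraMap K k a₁ * ξ * ζ + algebraMap K k a₀ * ζ ^ 2 ≠ 0 := by
      intro a₀ a₁ a₂ h0 h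
      refine key (C a₂ * X ^ 2 + C a₁ * X + C a₀) ?_ ?_
      · intro h1
        rcases h0 with h0 | h0
        · apply h0
          have := congrArg (fun R => R.coeff 2) h1
          simpa [Polynomial.coeff_X, Polynomial.coeff_C] using this
        · apply h0
          have := congrArg (fun R => R.coeff 1) h1
          simpa [Polynomial.coeff_X, Polynomial.coeff_C, Polynomial.coeff_X_pow] using this
      · simp only [map_add, map_mul, map_pow, aeval_X, aeval_C]
        have h2 : (algebraMap K k a₂ * (ξ / ζ) ^ 2 + algebraMap K k a₁ * (ξ / ζ) +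
            algebraMap K k a₀) * ζ ^ 2 = 0 := by
          rw [← h]
          field_simp
        exact (mul_eq_zero.1 h2).resolve_right (pow_ne_zero _ hζ0)
    have h1 : ξ - 2 * ζ ≠ 0 := by
      intro h
      apply q 0 (-2) 1 (Or.inl one_ne_zero)
      simp only [map_zero, map_neg, map_ofNat, map_one]
      linear_combination ξ * h
    have h2 : ξ ^ 2 ≠ ζ ^ 2 := by
      intro h
      apply q (-1) 0 1 (Or.inl one_ne_zero)
      simp only [map_zero, map_neg, map_one]
      linear_combination h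
    have h3 : ξ ^ 2 - 3 * ξ * ζ - ζ ^ 2 ≠ 0 := by
      intro h
      apply q (-1) (-3) 1 (Or.inl one_ne_zero)
      simp only [map_neg, map_ofNat, map_one]
      linear_combination h
    have h4 : ξ ^ 2 + 2 * ζ ^ 2 ≠ 0 := by
      intro h
      apply q 2 0 1 (Or.inl one_ne_zero)
      simp only [map_zero, map_ofNat, map_one]
      linear_combination h
    refine ⟨Finset.univ, ?_, ?_, ?_⟩
    · intro i _
      fin_cases i
      · exact (t0 hζ0).1
      · exact (t1 hξ0).1
      · exact (t2 h1).1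
    · intro i _ j _ hij
      change η i / θ i / e i ≠ η j / θ j / e j
      fin_cases i <;> fin_cases j
      · exact absurd rfl hij
      · exact c01 hζ0 hξ0 h2
      · exact c02 hζ0 h1 h3
      · exact (c01 hζ0 hξ0 h2).symm
      · exact absurd rfl hij
      · exact c12 hξ0 h1 h4
      · exact (c02 hζ0 h1 h3).symm
      · exact (c12 hξ0 h1 h4).symm
      · exact absurd rfl hij
    · rw [hW1, Finset.card_univ, Fintype.card_fin]

/-- **Families of subvarieties of `Y(1)^n` degenerating to the cusp** -/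
theorem result {K : Type} [Field K] [NumberField K] (σ : K →+* ℂ) :
    (∀ (n m : ℕ) (D : Degeneration K n), D.Position m →
      ∃ S : Set (HeightOneSpectrum (𝓞 K)), S.Finite ∧ ∀ a : K, aeval a D.P ≠ 0 →
        (∃ v ∉ S, v.valuation K (a - D.b) < 1) → NoAtypical (D.member σ a) m) ∧
    (∀ (n m : ℕ) (X : K → Set (Fin n → ℂ)) (D : Fin 3 → Degeneration K n),
      (∀ l, (D l).Position m) → (Function.Injective fun l => (D l).b) →
      (∀ l a, aeval a (D l).P ≠ 0 → X a ⊆ (D l).member σ a) →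
      {a : K | ¬ NoAtypical (X a) m}.Finite) ∧
    (∀ (n m : ℕ) (X : K → Set (Fin n → ℂ)) (D : Fin 2 → Degeneration K n),
      (∀ l, (D l).Position m) → (Function.Injective fun l => (D l).b) →
      (∀ l a, aeval a (D l).P ≠ 0 → X a ⊆ (D l).member σ a) →
      ∀ S₀ : Set (HeightOneSpectrum (𝓞 K)), S₀.Finite →
      {a : K | (∀ v ∉ S₀, v.valuation K a ≤ 1) ∧ ¬ NoAtypical (X a) m}.Finite) ∧
    (∀ (P : (𝓞 K)[X]) (b : Fin 3 → 𝓞 K) (e : Fin 3 → ℕ), P ≠ 0 → Function.Injective b →
      (∀ l, P.eval (b l) = 0) → (∀ i, 1 < e i) →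
      {a : K | ¬ NoAtypical (spaceCurve e (σ (aeval a P))) 1}.Finite) := by
  refine ⟨fun n m D hD => one_cusp σ D hD, fun n m X D hD hb hX => three_cusps σ X D hD hb hX,
    fun n m X D hD hb hX S₀ hS₀ => two_cusps σ X D hD hb hX S₀ hS₀, ?_⟩
  intro P b e hP hb hroot he
  exact three_cusps σ (fun a => spaceCurve e (σ (aeval a P)))
    (fun l => spaceDeg P hP (b l) (hroot l) e he)
    (fun l => space_position P hP (b l) (hroot l) e he) hb
    (fun l a ha => space_member σ P hP (b l) (hroot l) e he a ha)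

end Pool.Agent.Results.MP_e573c6_ag.DegenerationsToTheCusp
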