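import Pool.Agent.Results.MP_e573c6_ag.RandomOrbits
import Pool.Agent.U125.NO.Seq

/-!
# MP_e573c6_ag: Zilber-Pink for families of curves in `Y(1)^n` at algebraic parameters of all degrees, along
# normal sequences of integral vectors

The families `F`, the members `X_t = member F lam t ⊂ Y(1)^n`, and the property `ZilberPink Γ X_t` (only
finitely many points of `X_t` are on special subvarieties of codimension at least two, and each proper
special subvariety contains only finitely many points of `X_t`) are those of the starting file
`FamiliesAlmostAllParameters`: one-parameter families of curves, not necessarily isotrivial, of any genus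
and any degree, which tend to the cusp `(∞, ..., ∞)` for `t → ∞` in general position (`GoodOrigin F`).

`Controlled F lam Γ m u` (starting result `RandomOrbits`) means: the members `X_t` satisfy `ZilberPink` for all
algebraic numbers `t` of any degree `d ≥ 1` which are roots of some polynomial `f` with integral coefficients, of
degree `d`, whose leading coefficient is a multiple of `m`, and whose next coefficient divides a power
of `u`. The other coefficients of `f` are arbitrary.

**Theorem.** Let `c_0, c_1, …` be a normal orbit in `ℤ^ι` (`NormalOrbit`): the orbit of an integral vector under a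
finite family of integral affine maps along ANY normal sequence of indices, the family being wide (for all `q`
prime to some `q₀` the maps are bijective modulo `q`, and the vector can be moved to at least the proportion
`ε > 0`, not depending on `q`, of all vectors modulo `q`). Let `i ≠ j` be two coordinates. There is ONE set `E` of
times of natural density zero, such that for ALL families `F`, `lam` and all finite sets `Γ` of algebraic numbers
`Controlled F lam Γ (c_k(i)) (c_k(j))` is true for all but finitely many times `k ∉ E`.

Examples: (1) `c_k = (⌊b ^ k ξ_i⌋)_i` for ANY vector `ξ` of real numbers which is normal to the base `b ≥ 2`; (2) the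
orbit of any vector `v ≠ 0` along ANY normal word in matrices which generate the special linear group modulo
all `q` prime to some `q₀` (generators of a thin group); (3) vectors of integers whose digits are chosen from a
restricted set of vectors. The starting results `RandomOrbits` and `MetricSequences` are about almost every
random orbit in (2) and almost all vectors in (1).

The proof: `X_t` satisfies `ZilberPink` if `t` has a pole at a place over a prime `p`, larger than a bound
that depends on the family and `Γ` only, at which `t` generates an unramified extension of the completion.
The exceptional vectors are therefore contained in pronull sets (starting library), and normal orbits visit a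
pronull set only at times of density zero (engine `Pool.Agent.U125.NO`); a diagonal argument gives one set `E`.
-/

set_option autoImplicit false

namespace Pool.Agent.Results.MP_e573c6_ag.NormalSequences

open Filter Topology
open Pool.Agent.U125.NO (NormalOrbit Examples examples)
open Pool.Agent.Results.MP_e573c6_ag.FamiliesAlmostAllParameters
open Pool.Agent.Results.MP_e573c6_ag.RandomOrbits (Controlled exists_bound)

/-- **Zilber-Pink for all families of curves in `Y(1)^n` in general position at infinity, at algebraic
parameters of all degrees, along normal orbits.** -/
theorem result {ι : Type} [Fintype ι] [DecidableEq ι] (i j : ι) (hij : i ≠ j) :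
    (∀ c : ℕ → ι → ℤ, NormalOrbit c → ∃ E : Set ℕ,
      Tendsto (fun N : ℕ => (({k : ℕ | k < N ∧ k ∈ E}.ncard : ℕ) : ℝ) / (N : ℝ)) atTop (𝓝 0) ∧
      ∀ (n : ℕ) (κ : Type) [Finite κ]
        (F : κ → MvPolynomial (Fin n × Bool) (Polynomial (algebraicClosure ℚ ℂ))), GoodOrigin F →
        ∀ lam : Fin n → Polynomial (algebraicClosure ℚ ℂ), (∀ l, 0 < (lam l).natDegree) →
        ∀ Γ : Finset ℂ, (∀ γ ∈ Γ, IsAlgebraic ℚ γ) →
          {k : ℕ | k ∉ E ∧ ¬ Controlled F lam (Γ : Set ℂ) (c k i) (c k j)}.Finite) ∧
    Examples ι := by
  refine ⟨fun c hc => ?_, examples ι⟩
  obtain ⟨E, hE1, hE2⟩ := hc.avoids.diag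
    (fun (D : ℕ) (x : ι → ℤ) => x ∈ Pool.Agent.N262.ZPO.Bad i j D)
    (fun D => Pool.Agent.N262.ZPO.proNull_bad Pool.Agent.N24.RW.clo Pool.Agent.N24.RW.one hij D)
  refine ⟨E, hE1, fun n κ _ F hF lam hlam Γ hΓ => ?_⟩
  obtain ⟨D, hD⟩ := exists_bound F hF lam hlam Γ hΓ
  refine (hE2 D).subset ?_
  rintro k ⟨hk1, hk2⟩
  refine ⟨hk1, ?_⟩
  by_contra h
  apply hk2
  apply hD
  by_contra h'
  exact h h'

end Pool.Agent.Results.MP_e573c6_ag.NormalSequences
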