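import Pool.Agent.Results.MP_e573c6_ag.RandomOrbits
import Pool.Agent.U471.RS.Avoid

/-!
# MP_e573c6_ag: Zilber-Pink for all families of curves in general position at infinity, at algebraic parameters
# of all degrees whose equations have two coefficients near the values of real polynomials

The families `X_t`, `t ≠ 0`, of curves in `Y(1)^n` are those of the starting results
`FamiliesAlmostAllParameters` and `RandomOrbits`: `X_t` (`member F lam t`) consists of the points `(lam_l(t) y_l)` with
`y` in `V_{1/t}`, where `V_s` is a family of curves in `(P^1)^n` given by multihomogeneous equations `F` with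
coefficients polynomials in `s`, such that `V_0` is in general position (`GoodOrigin`). `Controlled F lam Γ m u` says:
for ALL integral polynomials `g` of any degree `d > 0` whose leading coefficient is divisible by `m` and whose next
coefficient is a divisor of a power of `u` and each algebraic number `t` of degree `d` with `g(t) = 0` the conclusions of
the Zilber-Pink conjecture hold for `X_t` (`ZilberPink`), with constants integral over `ℤ[Γ]` or singular moduli.

**Theorem.** Let `P`, `Q` be real polynomials such that no combination `l P + m Q` with integers `l`, `m`, not both
zero, has only rational coefficients, apart from the constant one (`Indep`); for example `P = √2 k`, `Q = √3 k`,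
or `P = π k ^ 2`, `Q = π k`. There is ONE set `E` of density zero such that for ALL `n`, ALL families and all finite
sets `Γ` of algebraic numbers and all `D` the following is true for all but finitely many `k` outside `E`: for ALL
integers `a`, `b` with `|a - P(k)| ≤ D`, `|b - Q(k)| ≤ D` the property `Controlled F lam Γ a b` holds; for example
`X_t` satisfies `ZilberPink` for each algebraic number `t` of degree `d` which is a root of a polynomial
`a T^d + b T^(d-1) + a_{d-2} T^(d-2) + … + a_0` with ARBITRARY integers `a_0, …, a_{d-2}`. One set `E` works for
countably many pairs `P`, `Q`.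

The starting results are about almost every random orbit (`RandomOrbits`) and almost all real vectors
(`MetricSequences`, `OneNullSet`); `NormalSequences` has normal orbits.

Proof. `X_t` satisfies `ZilberPink` if `t` has a pole at a place over a prime `p`, larger than a bound
that depends on the family and `Γ` only, at which `t` generates an unramified extension of the completion.
The exceptional vectors are therefore contained in pronull sets (starting library). By the inverse theorem for Weyl
sums the integer parts of the values of the polynomials and all their translates are equidistributed modulo every `q`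
(engine `Pool.Agent.U471.DQ`), hence in a pronull set only at times of density zero; a diagonal argument gives `E`.
-/

set_option autoImplicit false

namespace Pool.Agent.Results.MP_e573c6_ag.RealPolynomialSequences

open Filter Topology
open Pool.Agent.U125.NO (Nul)
open Pool.Agent.U471.RS (Indep Close near_diag)
open Pool.Agent.Results.MP_e573c6_ag.FamiliesAlmostAllParameters
open Pool.Agent.Results.MP_e573c6_ag.RandomOrbits (Controlled exists_bound)

/-- **Zilber-Pink for all families of curves in `Y(1)^n` in general position at infinity, at algebraic
parameters of all degrees near the values of real polynomials.** `Nul E`: the set `E` of natural numbers has natural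
density zero; `Close D f k c`: `|c i - f_i(k)| ≤ D` for all `i`. -/
theorem result (f : ℕ → Fin 2 → Polynomial ℝ) (hf : ∀ b, Indep (f b)) :
    ∃ E : Set ℕ, Nul E ∧ ∀ (b D : ℕ) (n : ℕ) (κ : Type) [Finite κ]
        (F : κ → MvPolynomial (Fin n × Bool) (Polynomial (algebraicClosure ℚ ℂ))), GoodOrigin F →
        ∀ lam : Fin n → Polynomial (algebraicClosure ℚ ℂ), (∀ l, 0 < (lam l).natDegree) →
        ∀ Γ : Finset ℂ, (∀ γ ∈ Γ, IsAlgebraic ℚ γ) →
          {k : ℕ | k ∉ E ∧ ∃ c : Fin 2 → ℤ, Close D (f b) k c ∧
            ¬ Controlled F lam (Γ : Set ℂ) (c 0) (c 1)}.Finite := by
  obtain ⟨E, hE1, hE2⟩ := near_diag f hf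
    (fun (T : ℕ) (x : Fin 2 → ℤ) => x ∈ Pool.Agent.N262.ZPO.Bad 0 1 T)
    (fun T => Pool.Agent.N262.ZPO.proNull_bad Pool.Agent.N24.RW.clo Pool.Agent.N24.RW.one
      (by decide : (0 : Fin 2) ≠ 1) T)
  refine ⟨E, hE1, fun b D n κ _ F hF lam hlam Γ hΓ => ?_⟩
  obtain ⟨T, hT⟩ := exists_bound F hF lam hlam Γ hΓ
  refine (hE2 b D T).subset ?_
  rintro k ⟨hk1, c, hc, hk2⟩
  refine ⟨hk1, c, hc, ?_⟩
  by_contra h
  apply hk2
  apply hT
  by_contra h'
  exact h h'

end Pool.Agent.Results.MP_e573c6_ag.RealPolynomialSequences
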